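import Pool.Agent.K3h53.UG.Stm5
import Pool.Agent.K3h51.UG.Br

/-! # UG project (helper53): brick BR6 (helper99) -/

set_option autoImplicit false

namespace Pool.Agent.K3h99.UG

open MvPolynomial Filter Topology Metric Set Pool.Agent.K3h22.EX Pool.Agent.K3h53.UG
open Pool.Agent.K3h67.EX (dlin dlin_apply hasStrict)
open Pool.Agent.K3h51.UG (contDiff_eval eval_dd)

/-- the parameter space -/
abbrev Par (s r : ℕ) : Type := (ℂ × (Fin s → ℂ)) × (Fin r → ℂ)

/-- the point after division by the weighted powers of `R` -/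
noncomputable def Xf {n s r : ℕ} (e : Fin s ⊕ Fin r ≃ Fin n) (w : Fin n → ℕ)
    (σ : Fin s → Fin r → ℝ) (lam : Fin s → ℂ) (x : Par s r) : Fin n → ℂ :=
  fun i => (Sum.elim (fun j => lam j + x.1.1 ^ (w (e (Sum.inl j)) - 1) *
    (x.1.2 j + ∑ b, ((σ j b : ℝ) : ℂ) * x.2 b)) x.2 : Fin s ⊕ Fin r → ℂ) (e.symm i)

theorem contDiff_Xf {n s r : ℕ} (e : Fin s ⊕ Fin r ≃ Fin n) (w : Fin n → ℕ)
    (σ : Fin s → Fin r → ℝ) (lam : Fin s → ℂ) (i : Fin n) :
    ContDiff ℂ 1 (fun x : Par s r => Xf e w σ lam x i) := by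
  have h1 : ContDiff ℂ 1 (fun x : Par s r => x.1.1) := contDiff_fst.comp contDiff_fst
  have h2 : ∀ j, ContDiff ℂ 1 (fun x : Par s r => x.1.2 j) := fun j =>
    (contDiff_apply ℂ ℂ j).comp (contDiff_snd.comp contDiff_fst)
  have h3 : ∀ b, ContDiff ℂ 1 (fun x : Par s r => x.2 b) := fun b =>
    (contDiff_apply ℂ ℂ b).comp contDiff_snd
  unfold Xf
  rcases e.symm i with j | b
  · simp only [Sum.elim_inl]
    refine contDiff_const.add ((h1.pow _).mul ((h2 j).add ?_))
    apply ContDiff.sum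
    intro b _
    exact contDiff_const.mul (h3 b)
  · simp only [Sum.elim_inr]
    exact h3 b

theorem Xf_zero {n s r : ℕ} (e : Fin s ⊕ Fin r ≃ Fin n) (w : Fin n → ℕ) (hw : ∀ i, 1 ≤ w i)
    (σ : Fin s → Fin r → ℝ) (lam : Fin s → ℂ) (t : Fin r → ℂ) :
    Xf e w σ lam ((0, 0), t) = xr e (sg e w σ) lam t := by
  funext i
  unfold Xf xr
  rcases e.symm i with j | b
  · simp only [Sum.elim_inl, sg]
    by_cases h : w (e (Sum.inl j)) = 1
    · simp only [h, if_true]
      simp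
    · simp only [h, if_false]
      have h1 : w (e (Sum.inl j)) - 1 ≠ 0 := by
        have := hw (e (Sum.inl j))
        omega
      rw [zero_pow h1]
      simp
  · simp only [Sum.elim_inr]

theorem Xf_scale {n s r : ℕ} (e : Fin s ⊕ Fin r ≃ Fin n) (w : Fin n → ℕ) (hw : ∀ i, 1 ≤ w i)
    (hw1 : ∀ b, w (e (Sum.inr b)) = 1) (σ : Fin s → Fin r → ℝ) (lam : Fin s → ℂ)
    (l : Fin s → ℂ) (t : Fin r → ℂ) (R : ℂ) (hR : R ≠ 0) (i : Fin n) :
    xr e σ (fun j => R ^ w (e (Sum.inl j)) * lam j + R * l j) (fun b => R * t b) i =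
      R ^ w i * Xf e w σ lam ((R⁻¹, l), t) i := by
  unfold Xf xr
  obtain ⟨k, rfl⟩ := e.surjective i
  rw [Equiv.symm_apply_apply]
  rcases k with j | b
  · simp only [Sum.elim_inl]
    obtain ⟨m, hm⟩ : ∃ m, w (e (Sum.inl j)) = m + 1 := ⟨w (e (Sum.inl j)) - 1, by
      have := hw (e (Sum.inl j))
      omega⟩
    rw [hm, Nat.add_sub_cancel]
    have h1 : R ^ (m + 1) * (R⁻¹) ^ m = R := by
      rw [pow_succ, inv_pow]
      field_simp
    have h2 : ∑ b, ((σ j b : ℝ) : ℂ) * (R * t b) = R * ∑ b, ((σ j b : ℝ) : ℂ) * t b := by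
      rw [Finset.mul_sum]
      exact Finset.sum_congr rfl fun b _ => by ring
    rw [h2, mul_add, ← mul_assoc, h1]
    ring
  · simp only [Sum.elim_inr]
    rw [hw1, pow_one]

/-- the homogenized polynomial -/
noncomputable def Gm {n s r : ℕ} (e : Fin s ⊕ Fin r ≃ Fin n) (w : Fin n → ℕ)
    (σ : Fin s → Fin r → ℝ) (lam : Fin s → ℂ) (F : MvPolynomial (Fin n) ℂ) (x : Par s r) : ℂ :=
  ∑ m ∈ F.support, coeff m F * x.1.1 ^ (weightedTotalDegree w F - Finsupp.weight w m) *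
    ∏ i, Xf e w σ lam x i ^ m i

theorem Gm_contDiff {n s r : ℕ} (e : Fin s ⊕ Fin r ≃ Fin n) (w : Fin n → ℕ)
    (σ : Fin s → Fin r → ℝ) (lam : Fin s → ℂ) (F : MvPolynomial (Fin n) ℂ) :
    ContDiff ℂ 1 (Gm e w σ lam F) := by
  unfold Gm
  apply ContDiff.sum
  intro m _
  apply ContDiff.mul
  · exact contDiff_const.mul ((contDiff_fst.comp contDiff_fst).pow _)
  · apply contDiff_prod
    intro i _
    exact (contDiff_Xf e w σ lam i).pow _

theorem weight_eq {n : ℕ} (w : Fin n → ℕ) (m : Fin n →₀ ℕ) :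
    Finsupp.weight w m = ∑ i, m i * w i := by
  rw [Finsupp.weight_apply, Finsupp.sum_fintype]
  · simp
  · intro i
    exact zero_smul ℕ _

theorem Gm_zero {n s r : ℕ} (e : Fin s ⊕ Fin r ≃ Fin n) (w : Fin n → ℕ) (hw : ∀ i, 1 ≤ w i)
    (σ : Fin s → Fin r → ℝ) (lam : Fin s → ℂ) (F : MvPolynomial (Fin n) ℂ) (t : Fin r → ℂ) :
    Gm e w σ lam F ((0, 0), t) = eval (xr e (sg e w σ) lam t) (wtop w F) := by
  classical
  unfold Gm wtop
  rw [weightedHomogeneousComponent_apply, map_sum, Finset.sum_filter]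
  refine Finset.sum_congr rfl fun m hm => ?_
  rw [Xf_zero e w hw]
  have h1 := le_weightedTotalDegree w hm
  split_ifs with h
  · rw [h, Nat.sub_self, pow_zero, mul_one, eval_monomial, Finsupp.prod_fintype _ _ (by simp)]
  · rw [zero_pow (by omega)]
    simp

theorem Gm_scale {n s r : ℕ} (e : Fin s ⊕ Fin r ≃ Fin n) (w : Fin n → ℕ) (hw : ∀ i, 1 ≤ w i)
    (hw1 : ∀ b, w (e (Sum.inr b)) = 1) (σ : Fin s → Fin r → ℝ) (lam : Fin s → ℂ)
    (F : MvPolynomial (Fin n) ℂ) (l : Fin s → ℂ) (t : Fin r → ℂ) (R : ℂ) (hR : R ≠ 0) :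
    eval (xr e σ (fun j => R ^ w (e (Sum.inl j)) * lam j + R * l j) (fun b => R * t b)) F =
      R ^ weightedTotalDegree w F * Gm e w σ lam F ((R⁻¹, l), t) := by
  unfold Gm
  rw [eval_eq', Finset.mul_sum]
  refine Finset.sum_congr rfl fun m hm => ?_
  have h1 := le_weightedTotalDegree w hm
  have h2 : ∏ i, xr e σ (fun j => R ^ w (e (Sum.inl j)) * lam j + R * l j)
      (fun b => R * t b) i ^ m i =
      R ^ Finsupp.weight w m * ∏ i, Xf e w σ lam ((R⁻¹, l), t) i ^ m i := by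
    rw [weight_eq, ← Finset.prod_pow_eq_pow_sum, ← Finset.prod_mul_distrib]
    refine Finset.prod_congr rfl fun i _ => ?_
    rw [Xf_scale e w hw hw1 σ lam l t R hR, mul_pow, ← pow_mul, mul_comm (w i)]
  have h3 : R ^ weightedTotalDegree w F * R⁻¹ ^ (weightedTotalDegree w F - Finsupp.weight w m) =
      R ^ Finsupp.weight w m := by
    obtain ⟨a, ha⟩ := Nat.exists_eq_add_of_le h1
    rw [ha, Nat.add_sub_cancel_left, pow_add, mul_assoc, ← mul_pow, mul_inv_cancel₀ hR, one_pow,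
      mul_one]
  rw [h2]
  calc coeff m F * (R ^ Finsupp.weight w m * ∏ i, Xf e w σ lam ((R⁻¹, l), t) i ^ m i) =
      coeff m F * ((R ^ weightedTotalDegree w F *
        R⁻¹ ^ (weightedTotalDegree w F - Finsupp.weight w m)) *
        ∏ i, Xf e w σ lam ((R⁻¹, l), t) i ^ m i) := by rw [h3]
    _ = _ := by ring

/-- `xr` is affine in the last variable -/
theorem deriv_xr {n s r : ℕ} (e : Fin s ⊕ Fin r ≃ Fin n) (τ : Fin s → Fin r → ℝ)
    (lam : Fin s → ℂ) (θ : Fin r → ℂ) : ∃ A : (Fin r → ℂ) →L[ℂ] (Fin n → ℂ),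
    (∀ v, A v = xr e τ 0 v) ∧ HasFDerivAt (fun t => xr e τ lam t) A θ := by
  let A0 : (Fin r → ℂ) →ₗ[ℂ] (Fin n → ℂ) :=
    { toFun := fun v => xr e τ 0 v
      map_add' := fun u v => by
        funext i
        simp only [xr, Pi.add_apply]
        rcases e.symm i with j | b
        · simp only [Sum.elim_inl, Pi.zero_apply, zero_add, Pi.add_apply, mul_add,
            Finset.sum_add_distrib]
        · simp only [Sum.elim_inr, Pi.add_apply]
      map_smul' := fun c v => by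
        funext i
        simp only [xr, Pi.smul_apply, RingHom.id_apply, smul_eq_mul]
        rcases e.symm i with j | b
        · simp only [Sum.elim_inl, Pi.zero_apply, zero_add, Pi.smul_apply, smul_eq_mul,
            Finset.mul_sum]
          exact Finset.sum_congr rfl fun b _ => by ring
        · simp only [Sum.elim_inr, Pi.smul_apply, smul_eq_mul] }
  let A : (Fin r → ℂ) →L[ℂ] (Fin n → ℂ) := LinearMap.toContinuousLinearMap A0
  refine ⟨A, fun v => rfl, ?_⟩
  have h1 : (fun t => xr e τ lam t) = fun t => xr e τ lam 0 + A t := by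
    funext t i
    change xr e τ lam t i = xr e τ lam 0 i + xr e τ 0 t i
    simp only [xr]
    rcases e.symm i with j | b
    · simp
    · simp
  rw [h1]
  exact A.hasFDerivAt.const_add _

theorem t_BR6 : S_BR6 := by
  classical
  intro n s r e w hw hw1 F σ lam θ hG δ hδ
  set τ := sg e w σ with hτ
  let G : Par s r → (Fin r → ℂ) := fun x i => Gm e w σ lam (F i) x
  have hGc : ContDiff ℂ 1 G := by
    rw [contDiff_pi]
    exact fun i => Gm_contDiff e w σ lam (F i)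
  have hcd : ContDiffAt ℂ 1 G (((0 : ℂ), (0 : Fin s → ℂ)), θ) := hGc.contDiffAt
  have hG0 : ∀ t, G ((0, 0), t) = fun i => eval (xr e τ lam t) (wtop w (F i)) := fun t =>
    funext fun i => Gm_zero e w hw σ lam (F i) t
  -- the derivative
  have hcomp : HasFDerivAt (fun t => G ((0, 0), t))
      (fderiv ℂ G (((0 : ℂ), (0 : Fin s → ℂ)), θ) ∘L .inr ℂ (ℂ × (Fin s → ℂ)) (Fin r → ℂ)) θ := by
    have h2 : HasFDerivAt (fun t : Fin r → ℂ => (((0 : ℂ), (0 : Fin s → ℂ)), t))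
        (ContinuousLinearMap.inr ℂ (ℂ × (Fin s → ℂ)) (Fin r → ℂ)) θ :=
      hasFDerivAt_prodMk_right _ _
    exact (hcd.differentiableAt one_ne_zero).hasFDerivAt.comp θ h2
  obtain ⟨A, hA, hAd⟩ := deriv_xr e τ lam θ
  have hcomp' : HasFDerivAt (fun t => G ((0, 0), t))
      (ContinuousLinearMap.pi fun i => (dlin (wtop w (F i)) (xr e τ lam θ)) ∘L A) θ := by
    simp only [hG0]
    rw [hasFDerivAt_pi]
    intro i
    exact (hasStrict (wtop w (F i)) (xr e τ lam θ)).hasFDerivAt.comp θ hAd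
  have hval := hcomp.unique hcomp'
  have hinv : (fderiv ℂ G (((0 : ℂ), (0 : Fin s → ℂ)), θ) ∘L
      .inr ℂ (ℂ × (Fin s → ℂ)) (Fin r → ℂ)).IsInvertible := by
    rw [hval]
    set L := (ContinuousLinearMap.pi fun i => (dlin (wtop w (F i)) (xr e τ lam θ)) ∘L A :
      (Fin r → ℂ) →L[ℂ] (Fin r → ℂ)) with hL
    have hdet : LinearMap.det (L : (Fin r → ℂ) →ₗ[ℂ] (Fin r → ℂ)) ≠ 0 := by
      rw [← LinearMap.det_toMatrix']
      have h3 : LinearMap.toMatrix' (L : (Fin r → ℂ) →ₗ[ℂ] (Fin r → ℂ)) =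
          Matrix.of fun i b : Fin r =>
            eval (xr e τ lam θ) (dd (xr e τ 0 (Pi.single b 1)) (wtop w (F i))) := by
        ext i b
        rw [LinearMap.toMatrix'_apply, Matrix.of_apply, eval_dd, ← hA]
        rfl
      rw [h3]
      exact hG.det
    refine ⟨(LinearMap.equivOfDetNeZero _ hdet).toContinuousLinearEquiv, ?_⟩
    ext v i
    rfl
  set Ψ := hcd.implicitFunction one_ne_zero hinv with hΨ
  have e1 : Ψ (0, 0) = θ := hcd.implicitFunction_apply_self one_ne_zero hinv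
  have hGθ : G (((0 : ℂ), (0 : Fin s → ℂ)), θ) = 0 := by
    rw [hG0]
    funext i
    exact hG.zero i
  have e2 : ∀ᶠ x in 𝓝 ((0 : ℂ), (0 : Fin s → ℂ)), G (x, Ψ x) = 0 := by
    have := hcd.eventually_apply_implicitFunction one_ne_zero hinv
    rw [hGθ] at this
    exact this
  have e3 : ContDiffAt ℂ 1 Ψ (0, 0) := hcd.contDiffAt_implicitFunction one_ne_zero hinv
  have e4 : ∀ᶠ x in 𝓝 ((0 : ℂ), (0 : Fin s → ℂ)), ContDiffAt ℂ 1 Ψ x := e3.eventually (by simp)
  have e5 : ∀ᶠ x in 𝓝 ((0 : ℂ), (0 : Fin s → ℂ)), ‖Ψ x - θ‖ < δ := by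
    have h2 := e3.continuousAt.tendsto
    rw [e1] at h2
    have h3 := h2.eventually (ball_mem_nhds θ hδ)
    filter_upwards [h3] with x hx
    rwa [dist_eq_norm] at hx
  obtain ⟨ρ, hρ, hball⟩ := Metric.eventually_nhds_iff_ball.1 (e2.and (e4.and e5))
  refine ⟨ρ, 2 / ρ + 1, hρ, by
    have : 0 < 2 / ρ := by positivity
    linarith, ?_⟩
  intro R hR
  have hρ2 : 0 < 2 / ρ := by positivity
  have hR1 : 1 ≤ R := by linarith
  have hRpos : 0 < R := by linarith
  have hRc : (R : ℂ) ≠ 0 := by exact_mod_cast hRpos.ne'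
  have hRinv : ‖((R : ℂ))⁻¹‖ < ρ := by
    rw [norm_inv, Complex.norm_real, Real.norm_of_nonneg hRpos.le, inv_lt_comm₀ hRpos hρ]
    have : ρ⁻¹ ≤ 2 / ρ := by
      rw [inv_eq_one_div]
      exact div_le_div_of_nonneg_right (by norm_num) hρ.le
    linarith
  have hx : ∀ l ∈ ball (cen e w R lam) (ρ * R),
      ((R : ℂ)⁻¹, fun j => (R : ℂ)⁻¹ * (l j - cen e w R lam j)) ∈
      ball ((0 : ℂ), (0 : Fin s → ℂ)) ρ := by
    intro l hl
    rw [mem_ball, dist_eq_norm] at hl ⊢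
    rw [Prod.norm_def, max_lt_iff]
    constructor
    · simp only [Prod.fst_sub, sub_zero]
      exact hRinv
    · simp only [Prod.snd_sub, sub_zero]
      have h2 : (fun j => (R : ℂ)⁻¹ * (l j - cen e w R lam j)) =
          (R : ℂ)⁻¹ • (l - cen e w R lam) := by
        funext j
        simp only [Pi.sub_apply, Pi.smul_apply, smul_eq_mul]
      rw [h2, norm_smul, norm_inv, Complex.norm_real, Real.norm_of_nonneg hRpos.le,
        inv_mul_lt_iff₀ hRpos]
      linarith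
  refine ⟨fun l b => R * Ψ ((R : ℂ)⁻¹, fun j => (R : ℂ)⁻¹ * (l j - cen e w R lam j)) b, ?_, ?_⟩
  · intro b l hl
    obtain ⟨-, q2, -⟩ := hball _ (hx l hl)
    apply DifferentiableAt.differentiableWithinAt
    apply DifferentiableAt.const_mul
    have h2 : DifferentiableAt ℂ
        (fun l : Fin s → ℂ => ((R : ℂ)⁻¹, fun j => (R : ℂ)⁻¹ * (l j - cen e w R lam j))) l := by
      apply DifferentiableAt.prodMk
      · exact differentiableAt_const _
      · rw [differentiableAt_pi]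
        intro j
        exact ((differentiableAt_apply j l).sub_const _).const_mul _
    have h3 := (q2.differentiableAt one_ne_zero).comp l h2
    exact (differentiableAt_pi.mp h3) b
  · intro l hl
    obtain ⟨q1, -, q3⟩ := hball _ (hx l hl)
    constructor
    · intro i
      have h2 := Gm_scale e w hw hw1 σ lam (F i)
        (fun j => (R : ℂ)⁻¹ * (l j - cen e w R lam j))
        (Ψ ((R : ℂ)⁻¹, fun j => (R : ℂ)⁻¹ * (l j - cen e w R lam j))) R hRc
      have h3 : Gm e w σ lam (F i) (((R : ℂ)⁻¹, fun j => (R : ℂ)⁻¹ * (l j - cen e w R lam j)),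
          Ψ ((R : ℂ)⁻¹, fun j => (R : ℂ)⁻¹ * (l j - cen e w R lam j))) = 0 := congrFun q1 i
      rw [h3, mul_zero] at h2
      have h4 : (fun j => (R : ℂ) ^ w (e (Sum.inl j)) * lam j +
          (R : ℂ) * ((R : ℂ)⁻¹ * (l j - cen e w R lam j))) = l := by
        funext j
        rw [← mul_assoc, mul_inv_cancel₀ hRc, one_mul]
        unfold cen
        push_cast
        ring
      rw [h4] at h2
      exact h2
    · intro b
      rw [← mul_sub, norm_mul, Complex.norm_real, Real.norm_of_nonneg hRpos.le]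
      have h2 : ‖Ψ ((R : ℂ)⁻¹, fun j => (R : ℂ)⁻¹ * (l j - cen e w R lam j)) b - θ b‖ ≤
          ‖Ψ ((R : ℂ)⁻¹, fun j => (R : ℂ)⁻¹ * (l j - cen e w R lam j)) - θ‖ :=
        norm_le_pi_norm (Ψ ((R : ℂ)⁻¹, fun j => (R : ℂ)⁻¹ * (l j - cen e w R lam j)) - θ) b
      nlinarith
end Pool.Agent.K3h99.UG
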